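import Pool.Agent.N990.PT.Stm

/-!
# The Potts model on hierarchical lattices: the critical point (part CRI)
-/

open Filter Set
open scoped Topology

namespace Pool.Agent.N937.PT.CRI

open Pool.Agent.N990.PT

/-- The Migdal-Kadanoff map. -/
noncomputable def G (b q : ℕ) (K : ℝ) : ℝ :=
  b * Real.log ((Real.exp (2 * K) + q - 1) / (2 * Real.exp K + q - 2))

lemma Kf_succ (b q : ℕ) (β : ℝ) (n : ℕ) : Kf b q β (n + 1) = G b q (Kf b q β n) := rfl

lemma Kf_zero (b q : ℕ) (β : ℝ) : Kf b q β 0 = β := rfl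

lemma num_pos {q : ℕ} (hq : 2 ≤ q) (K : ℝ) : 0 < Real.exp (2 * K) + q - 1 := by
  have h1 : (2 : ℝ) ≤ q := by exact_mod_cast hq
  have h2 := Real.exp_pos (2 * K)
  linarith

lemma den_pos {q : ℕ} (hq : 2 ≤ q) (K : ℝ) : 0 < 2 * Real.exp K + q - 2 := by
  have h1 : (2 : ℝ) ≤ q := by exact_mod_cast hq
  have h2 := Real.exp_pos K
  linarith

lemma exp_two_mul' (K : ℝ) : Real.exp (2 * K) = Real.exp K ^ 2 := by
  rw [two_mul, Real.exp_add, sq]

lemma G_cont {b q : ℕ} (hq : 2 ≤ q) : Continuous (G b q) := by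
  unfold G
  refine continuous_const.mul (Continuous.log ?_ ?_)
  · refine Continuous.div (by fun_prop) (by fun_prop) ?_
    intro K
    exact (den_pos hq K).ne'
  · intro K
    exact (div_pos (num_pos hq K) (den_pos hq K)).ne'

lemma G_mono {b q : ℕ} (hq : 2 ≤ q) {K K' : ℝ} (h0 : 0 ≤ K) (h : K ≤ K') :
    G b q K ≤ G b q K' := by
  unfold G
  refine mul_le_mul_of_nonneg_left ?_ (Nat.cast_nonneg b)
  refine Real.log_le_log (div_pos (num_pos hq K) (den_pos hq K)) ?_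
  rw [div_le_div_iff₀ (den_pos hq K) (den_pos hq K')]
  rw [exp_two_mul', exp_two_mul']
  have h1 : (2 : ℝ) ≤ q := by exact_mod_cast hq
  have hx : 1 ≤ Real.exp K := Real.one_le_exp h0
  have hxy : Real.exp K ≤ Real.exp K' := Real.exp_le_exp.mpr h
  set x := Real.exp K with hxdef
  set y := Real.exp K' with hydef
  set Q : ℝ := (q : ℝ) with hQ
  have key : 0 ≤ (y - x) * (2 * x * y + (Q - 2) * (x + y) - 2 * (Q - 1)) := by
    refine mul_nonneg (by linarith) ?_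
    have hy : 1 ≤ y := hx.trans hxy
    nlinarith [mul_nonneg (sub_nonneg.mpr hx) (sub_nonneg.mpr hy),
      mul_nonneg (sub_nonneg.mpr h1) (sub_nonneg.mpr hx),
      mul_nonneg (sub_nonneg.mpr h1) (sub_nonneg.mpr hy)]
  nlinarith [key]

lemma G_small {b q : ℕ} (hb : 2 ≤ b) (hq : 2 ≤ q) {K : ℝ} (h0 : 0 ≤ K)
    (h : K ≤ 1 / (4 * (b : ℝ))) : G b q K ≤ K := by
  have hb' : (2 : ℝ) ≤ b := by exact_mod_cast hb
  have hq' : (2 : ℝ) ≤ q := by exact_mod_cast hq
  have hbK : 4 * (b : ℝ) * K ≤ 1 := by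
    rw [le_div_iff₀ (by positivity)] at h
    linarith
  have hK1 : K ≤ 1 := by nlinarith
  have hx : 1 ≤ Real.exp K := Real.one_le_exp h0
  have hx2 : Real.exp K - 1 ≤ 2 * K := by
    have h1 := Real.abs_exp_sub_one_le (x := K) (by rw [abs_of_nonneg h0]; exact hK1)
    rw [abs_of_nonneg h0, abs_of_nonneg (by linarith)] at h1
    exact h1
  have hrat : (Real.exp (2 * K) + q - 1) / (2 * Real.exp K + q - 2) - 1 ≤ 4 * K ^ 2 := by
    rw [exp_two_mul', sub_le_iff_le_add, div_le_iff₀ (den_pos hq K)]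
    set x := Real.exp K with hxdef
    have h3 : (x - 1) ^ 2 ≤ 4 * K ^ 2 := by nlinarith
    have h4 : 0 ≤ 4 * K ^ 2 * (2 * (x - 1) + ((q : ℝ) - 1)) := by
      apply mul_nonneg (by positivity)
      linarith
    nlinarith [h3, h4]
  have hlog : Real.log ((Real.exp (2 * K) + q - 1) / (2 * Real.exp K + q - 2)) ≤ 4 * K ^ 2 :=
    (Real.log_le_sub_one_of_pos (div_pos (num_pos hq K) (den_pos hq K))).trans hrat
  unfold G
  calc (b : ℝ) * Real.log ((Real.exp (2 * K) + q - 1) / (2 * Real.exp K + q - 2))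
      ≤ b * (4 * K ^ 2) := mul_le_mul_of_nonneg_left hlog (Nat.cast_nonneg b)
    _ = (4 * b * K) * K := by ring
    _ ≤ 1 * K := mul_le_mul_of_nonneg_right hbK h0
    _ = K := one_mul K

lemma Kf_cont {b q : ℕ} (hq : 2 ≤ q) (n : ℕ) : Continuous fun β => Kf b q β n := by
  induction n with
  | zero => exact continuous_id
  | succ n ih => exact (G_cont hq).comp ih

theorem t_cri (h1 : Pool.Agent.N990.PT.S_GRO) : Pool.Agent.N990.PT.S_CRI := by
  intro b q hb hq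
  have hb' : (2 : ℝ) ≤ b := by exact_mod_cast hb
  have hq' : (2 : ℝ) ≤ q := by exact_mod_cast hq
  have hlogq : 0 < Real.log q := Real.log_pos (by linarith)
  -- nonnegativity
  have hnn : ∀ β : ℝ, 0 ≤ β → ∀ n, 0 ≤ Kf b q β n := by
    intro β hβ n
    cases n with
    | zero => exact hβ
    | succ n => exact (h1 b q hb hq β).2 n
  -- monotone
  have hmono : ∀ β β' : ℝ, 0 ≤ β → β ≤ β' → ∀ n, Kf b q β n ≤ Kf b q β' n := by
    intro β β' hβ hββ' n
    induction n with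
    | zero => exact hββ'
    | succ n ih => exact G_mono hq (hnn β hβ n) ih
  -- small
  have hsmall : ∀ β : ℝ, 0 ≤ β → β ≤ 1 / (4 * (b : ℝ)) → ∀ n, Kf b q β n ≤ β := by
    intro β hβ hs n
    induction n with
    | zero => exact le_rfl
    | succ n ih => exact (G_small hb hq (hnn β hβ n) (ih.trans hs)).trans ih
  have hε : 0 < 1 / (4 * (b : ℝ)) := by positivity
  have hε1 : 1 / (4 * (b : ℝ)) < 1 := by
    rw [div_lt_one (by positivity)]
    linarith
  let A : Set ℝ := {β | 0 ≤ β ∧ ∃ n, 2 * Real.log q + 1 ≤ Kf b q β n}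
  have hne : A.Nonempty := ⟨2 * Real.log q + 1, by positivity, 0, le_rfl⟩
  have hlow : ∀ β ∈ A, 1 / (4 * (b : ℝ)) ≤ β := by
    rintro β ⟨hβ, n, hn⟩
    by_contra hlt
    push Not at hlt
    have := hsmall β hβ hlt.le n
    linarith
  have hbdd : BddBelow A := ⟨_, hlow⟩
  refine ⟨sInf A, lt_of_lt_of_le hε (le_csInf hne hlow), fun β hβ => ⟨?_, ?_⟩⟩
  · intro hA
    have hβA : β ∈ A := ⟨hβ, hA⟩
    have hβpos : 0 < β := lt_of_lt_of_le hε (hlow β hβA)
    obtain ⟨C, hC⟩ := (h1 b q hb hq β).1 hA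
    obtain ⟨N, hN⟩ := exists_nat_ge (2 * Real.log q + 2 + C)
    have hKN : 2 * Real.log q + 1 < Kf b q β N := by
      have := hC N
      linarith
    have hev : ∀ᶠ β' in 𝓝 β, 2 * Real.log q + 1 < Kf b q β' N ∧ 0 < β' :=
      ((Kf_cont hq N).continuousAt.eventually (lt_mem_nhds hKN)).and (lt_mem_nhds hβpos)
    have hev2 : ∀ᶠ β' in 𝓝[<] β, 2 * Real.log q + 1 < Kf b q β' N ∧ 0 < β' :=
      hev.filter_mono nhdsWithin_le_nhds
    obtain ⟨β', ⟨h3, h4⟩, h5⟩ := (hev2.and self_mem_nhdsWithin).exists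
    exact lt_of_le_of_lt (csInf_le hbdd ⟨h4.le, N, h3.le⟩) h5
  · intro hlt
    obtain ⟨β', ⟨h3, n, h4⟩, h5⟩ := exists_lt_of_csInf_lt hne hlt
    exact ⟨n, h4.trans (hmono β' β h3 h5.le n)⟩

end Pool.Agent.N937.PT.CRI
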